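import Pool.Agent.LibSchW.W8
import Pool.Agent.LibSchM.M5

/-!
# `ColOK` for `b ≥ 9/20`: the three-term inequality of `LibSchM` in the present variables
-/

open Set

namespace SchW

open SchV Pool.Agent.LibSchP Pool.Agent.LibSchA Pool.Agent.LibSchG

section

variable {b : ℝ} (hb0 : 0 < b) (hb1 : b < 1) {x : ℝ} (hx : 0 < x)

include hx in
theorem hh_eq_hf : hh b x = SchM.hf b x := by
  have h1 := (Real.sinh_pos_iff.2 hx).ne'
  have h2 := (Real.cosh_pos x).ne'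
  rw [hh, SchV.sg_eq hx.ne', SchM.hf, div_div]

include hx in
theorem Dn_eq_Dnf (C : ℝ) : Dn b x C = SchM.Dnf b x C := by
  rw [Dn, SchM.Dnf, hh_eq_hf hx]

include hb0 hx in
theorem sg_eq_hf : SchV.sg b x = SchM.hf b x * Real.cosh x := by
  rw [← hh_eq_hf hx, hh, div_mul_cancel₀ _ (Real.cosh_pos x).ne']

include hb0 hb1 hx in
theorem Dn_pos' {C : ℝ} (hC0 : 0 ≤ C) (hC1 : C ≤ 1) : 0 < Dn b x C := by
  have h1 := hh_pos (α := x) hb0
  rw [Dn]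
  have h2 : C ^ 2 ≤ 1 := by nlinarith
  rcases h2.lt_or_eq with h | h
  · have : 0 ≤ C ^ 2 * hh b x ^ 2 := by positivity
    linarith
  · rw [h]
    have : 0 < hh b x ^ 2 := by positivity
    linarith

include hb0 hb1 hx in
theorem alh_eq {C : ℝ} (hC0 : 0 ≤ C) (hC1 : C ≤ 1) :
    alh b x C = Real.cosh x ^ 2 * Dn b x C * SchM.alf b x C := by
  have hD := (Dn_pos' hb0 hb1 hx hC0 hC1).ne'
  have hc := (Real.cosh_pos x).ne'
  rw [alh, SchM.alf, ← Dn_eq_Dnf hx, hh_eq_hf hx, sg_eq_hf hb0 hx, mul_assoc (Real.cosh x ^ 2),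
    mul_div_cancel₀ _ hD, Real.tanh_eq_sinh_div_cosh]
  field_simp
  ring

include hb0 hb1 hx in
theorem kbh_eq {C : ℝ} (hC0 : 0 ≤ C) (hC1 : C ≤ 1) :
    kbh b x C = Real.cosh x ^ 2 * Dn b x C * SchM.kbf b x C := by
  have hD := (Dn_pos' hb0 hb1 hx hC0 hC1).ne'
  have hc := (Real.cosh_pos x).ne'
  have hs := (Real.sinh_pos_iff.2 hx).ne'
  rw [kbh, SchM.kbf, ← Dn_eq_Dnf hx, hh_eq_hf hx, nu, m0, sg_eq_hf hb0 hx,
    Real.tanh_eq_sinh_div_cosh]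
  field_simp

include hb0 hb1 hx in
theorem kbd_eq {C : ℝ} (hC0 : 0 ≤ C) (hC1 : C ≤ 1) :
    kbh b x C + kdh b x C = Real.cosh x ^ 2 * Dn b x C * (2 * Real.tanh x) := by
  have hc := (Real.cosh_pos x).ne'
  rw [kbh, kdh, Real.tanh_eq_sinh_div_cosh]
  field_simp
  ring

end

/-- `Wq = η (w - w₀)` at the base -/
theorem Wq_eq {a e₁ e₂ : ℝ} (ha : 0 < a) (ha' : 2 * a < 1) (hx : 0 < Real.log (e₁ / e₂) / 2) :
    Wq a e₁ e₂ = SchM.etaf (2 * a) (Real.log (e₁ / e₂) / 2) *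
      SchM.wW (2 * a) (Real.log (e₁ / e₂) / 2) := by
  have hb0 : 0 < 2 * a := by linarith
  have hF := (SchK.F_pos hb0 ha' hx).ne'
  have e1 : Pool.Agent.LibSchG.wW a e₁ e₂ = SchM.wW (2 * a) (Real.log (e₁ / e₂) / 2) := rfl
  have e2 := SchK.wf_sub hb0 ha' hx
  have e3 : (1 - (2 * a) ^ 2) ≠ 0 := by nlinarith
  have e4 : (4 - (2 * a) ^ 2) ≠ 0 := by nlinarith
  have e5 := ha.ne'
  rw [Wq, e1, bB, SchM.etaf]
  have e6 : SchM.wW (2 * a) (Real.log (e₁ / e₂) / 2) = (1 - (2 * a) ^ 2) * (4 - (2 * a) ^ 2) /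
      (3 * (2 * a)) * Real.tanh (Real.log (e₁ / e₂) / 2) ^ 2 /
      SchK.Ff (2 * a) (Real.log (e₁ / e₂) / 2) := e2
  rw [e6]
  generalize Real.log (e₁ / e₂) / 2 = x at *
  field_simp

theorem Nh_eq {a e₁ e₂ : ℝ} (ha : 0 < a) (ha' : 2 * a < 1) (hx : 0 < Real.log (e₁ / e₂) / 2)
    {C : ℝ} (hC0 : 0 ≤ C) (hC1 : C ≤ 1) :
    Nh (2 * a) (Real.log (e₁ / e₂) / 2) C (w0 a) (Pool.Agent.LibSchG.wW a e₁ e₂) (Wq a e₁ e₂) =
      Real.cosh (Real.log (e₁ / e₂) / 2) ^ 2 * Dn (2 * a) (Real.log (e₁ / e₂) / 2) C *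
        SchM.p0f (2 * a) (Real.log (e₁ / e₂) / 2) C := by
  have hb0 : 0 < 2 * a := by linarith
  have e1 : Pool.Agent.LibSchG.wW a e₁ e₂ = SchM.wW (2 * a) (Real.log (e₁ / e₂) / 2) := rfl
  have e2 : w0 a + SchM.wW (2 * a) (Real.log (e₁ / e₂) / 2) =
      SchK.wf (2 * a) (Real.log (e₁ / e₂) / 2) := by
    rw [w0, SchM.wW]; ring
  have hF := SchK.F_pos hb0 ha' hx
  have hF1 := SchK.F1_neg hb0 ha' hx
  have hw := SchM.wf_pos hb0 ha' hx
  have hW := SchM.wW_pos hb0 ha' hx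
  rw [Nh, e1, Wq_eq ha ha' hx, e2, SchM.p0f]
  generalize Real.log (e₁ / e₂) / 2 = x at *
  have heta : 0 < SchM.etaf (2 * a) x := by
    rw [SchM.etaf]
    have : 0 < Real.tanh x ^ 2 * (-SchK.F1 (2 * a) x) :=
      mul_pos (pow_pos (SchK.tanh_pos hx) 2) (by linarith)
    exact div_pos (by linarith) hF
  have hc := Real.cosh_pos x
  have hs := Real.sinh_pos_iff.2 hx
  have hC2 : 0 ≤ 1 - C ^ 2 := by nlinarith
  have ht1 := SchK.tanh_lt_one' x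
  have ht := SchK.tanh_pos hx
  have hCt : 0 < 1 - C ^ 2 * Real.tanh x ^ 2 := by
    have : Real.tanh x ^ 2 < 1 := by nlinarith
    nlinarith [mul_nonneg (sq_nonneg C) (sub_nonneg.2 this.le)]
  have hsq : Real.sinh x ^ 2 = Real.cosh x ^ 2 - 1 := by
    have := Real.cosh_sq x; linarith
  have hd1 : SchK.wf (2 * a) x * (1 + (1 - C ^ 2) * Real.sinh x ^ 2) +
      (1 - C ^ 2) * (SchM.etaf (2 * a) x * SchM.wW (2 * a) x) * (1 + 2 * Real.sinh x ^ 2) =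
      Real.cosh x ^ 2 * (SchK.wf (2 * a) x * (1 - C ^ 2 * Real.tanh x ^ 2) +
      (1 - C ^ 2) * (1 + Real.tanh x ^ 2) * (SchM.etaf (2 * a) x * SchM.wW (2 * a) x)) := by
    rw [Real.tanh_eq_sinh_div_cosh]
    have hc' := hc.ne'
    field_simp
    rw [hsq]
    ring
  have hd2 : 0 < SchK.wf (2 * a) x * (1 - C ^ 2 * Real.tanh x ^ 2) +
      (1 - C ^ 2) * (1 + Real.tanh x ^ 2) * (SchM.etaf (2 * a) x * SchM.wW (2 * a) x) := by
    positivity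
  have hn1 : SchM.wW (2 * a) x * (C ^ 2 * (1 - Real.tanh x ^ 2) +
      (1 - C ^ 2) * (1 - Real.tanh x ^ 4) * SchM.etaf (2 * a) x) =
      (1 - Real.tanh x ^ 2) * (C ^ 2 * SchM.wW (2 * a) x +
      (1 - C ^ 2) * ((1 + Real.tanh x ^ 2) * (SchM.etaf (2 * a) x * SchM.wW (2 * a) x))) := by
    ring
  have hn2 : (1 - Real.tanh x ^ 2) * Real.cosh x ^ 2 = 1 := by
    rw [Real.tanh_eq_sinh_div_cosh]
    have hc' := hc.ne'
    field_simp
    linarith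
  have hn3 : Real.cosh x + C * Real.sinh x = Real.cosh x * (1 + C * Real.tanh x) := by
    rw [Real.tanh_eq_sinh_div_cosh]
    have hc' := hc.ne'
    field_simp
  rw [hd1, hn3]
  have hn4 : C * (1 + C * Real.tanh x) * SchM.wW (2 * a) x * (C ^ 2 * (1 - Real.tanh x ^ 2) +
      (1 - C ^ 2) * (1 - Real.tanh x ^ 4) * SchM.etaf (2 * a) x) =
      C * (1 + C * Real.tanh x) * ((1 - Real.tanh x ^ 2) * (C ^ 2 * SchM.wW (2 * a) x +
      (1 - C ^ 2) * ((1 + Real.tanh x ^ 2) *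
        (SchM.etaf (2 * a) x * SchM.wW (2 * a) x)))) := by
    rw [← hn1]; ring
  rw [hn4]
  set A := C ^ 2 * SchM.wW (2 * a) x +
      (1 - C ^ 2) * ((1 + Real.tanh x ^ 2) * (SchM.etaf (2 * a) x * SchM.wW (2 * a) x))
  set B := SchK.wf (2 * a) x * (1 - C ^ 2 * Real.tanh x ^ 2) +
      (1 - C ^ 2) * (1 + Real.tanh x ^ 2) * (SchM.etaf (2 * a) x * SchM.wW (2 * a) x)
  have hc' := hc.ne'
  have hB := hd2.ne'
  have e9 : ∀ D ch T q : ℝ, ch ≠ 0 → q * ch ^ 2 = 1 → D * (ch * (ch * T)) * (C * A / (ch ^ 2 * B)) =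
      ch ^ 2 * D * (C * T * (q * A) / B) := by
    intro D ch T q hch hq
    field_simp
    linear_combination (-(C * A * D * T)) * hq
  exact e9 _ _ _ _ hc' hn2

/-- the three-term inequality -/
theorem V1_all {a e₁ e₂ : ℝ} (ha : 0 < a) (ha' : 2 * a < 1) (hx : 0 < Real.log (e₁ / e₂) / 2)
    (hreg : 9 / 20 ≤ 2 * a ∨ Real.log (e₁ / e₂) / 2 ≤ 9 / 4)
    {C : ℝ} (hC0 : 0 ≤ C) (hC1 : C ≤ 1) :
    V1 (2 * a) (Real.log (e₁ / e₂) / 2) C (w0 a) (Pool.Agent.LibSchG.wW a e₁ e₂) (Wq a e₁ e₂) := by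
  have hb0 : 0 < 2 * a := by linarith
  obtain ⟨h0, h1, h2, h3⟩ := SchM.vertex hb0 ha' hx hreg hC0 hC1
  rw [V1, Nh_eq ha ha' hx hC0 hC1, kbd_eq hb0 ha' hx hC0 hC1, alh_eq hb0 ha' hx hC0 hC1,
    kbh_eq hb0 ha' hx hC0 hC1]
  generalize Real.log (e₁ / e₂) / 2 = x at *
  have ht := SchK.tanh_pos hx
  have hD : 0 < Real.cosh x ^ 2 * Dn (2 * a) x C :=
    mul_pos (pow_pos (Real.cosh_pos x) 2) (Dn_pos' hb0 ha' hx hC0 hC1)
  set k := Real.cosh x ^ 2 * Dn (2 * a) x C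
  set p := SchM.p0f (2 * a) x C
  set u := SchM.alf (2 * a) x C
  set v := SchM.kbf (2 * a) x C
  set t := Real.tanh x
  have h4 : p * (u * v + u * (2 * t) + v * (2 * t)) ≤ u * v * (2 * t) := by
    have e : p * (1 / u + 1 / v + 1 / (2 * t)) * (u * v * (2 * t)) =
        p * (u * v + u * (2 * t) + v * (2 * t)) := by
      have h1' := h1.ne'
      have h2' := h2.ne'
      have ht' := ht.ne'
      field_simp
      ring
    rw [← e]
    have : 0 ≤ u * v * (2 * t) := by positivity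
    nlinarith [mul_le_mul_of_nonneg_right h3 this]
  have h5 : 0 ≤ k ^ 3 := by positivity
  nlinarith [mul_le_mul_of_nonneg_left h4 h5]

/-- **`ColOK` for `b ≥ 9/20`** -/
theorem colOK_A {a e₁ e₂ c s X Z : ℝ} (hb : 9 / 20 ≤ 2 * a) (I : Inc a e₁ e₂ c s X Z) :
    ColOK a e₁ e₂ c s X Z := by
  have hx : 0 < Real.log (e₁ / e₂) / 2 := by
    have : 1 < e₁ / e₂ := (one_lt_div I.he₂).2 I.he
    have := Real.log_pos this
    linarith
  exact colOK_A' I (by linarith) (V1_all I.ha I.ha' hx (Or.inl hb) (C_nonneg I.hs I.hsc)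
    (C_le I.hs I.hcs))

end SchW
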