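import Pool.Agent.LibSchV.V6
import Pool.Agent.LibSchG.N0

/-!
# The interface of `LibSchG.N0` in hyperbolic coordinates

`e₁ = exp (m + α)`, `e₂ = exp (m - α)`, `b = 2 a`.
-/

open Set

namespace SchW

open SchV Pool.Agent.LibSchP Pool.Agent.LibSchA Pool.Agent.LibSchG

theorem dd_exp {b : ℝ} (hb0 : 0 < b) (p q : ℝ) : dd b (Real.exp p) (Real.exp q) =
    b * sg b ((p - q) / 2) * Real.exp ((b - 1) * ((p + q) / 2)) := by
  by_cases h : p = q
  · subst h
    rw [dd, if_pos rfl, sub_self, zero_div, sg_zero, mul_one, ← Real.exp_mul]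
    congr 2
    ring
  · have h1 : Real.exp p ≠ Real.exp q := fun h' => h (Real.exp_injective h')
    have h2 : (p - q) / 2 ≠ 0 := by
      intro h3
      apply h
      linarith
    have h3 : Real.sinh ((p - q) / 2) ≠ 0 := by rwa [ne_eq, Real.sinh_eq_zero]
    rw [dd, if_neg h1, sg_eq h2, ← Real.exp_mul, ← Real.exp_mul]
    have e1 : ∀ s t : ℝ, Real.exp s - Real.exp t =
      2 * Real.sinh ((s - t) / 2) * Real.exp ((s + t) / 2) := fun s t => by
      rw [Real.sinh_eq]
      have : 2 * ((Real.exp ((s - t) / 2) - Real.exp (-((s - t) / 2))) / 2) * Real.exp ((s + t) / 2)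
        = Real.exp ((s - t) / 2) * Real.exp ((s + t) / 2) -
          Real.exp (-((s - t) / 2)) * Real.exp ((s + t) / 2) := by ring
      rw [this, ← Real.exp_add, ← Real.exp_add]
      congr 2 <;> ring
    rw [e1 p q, e1 (p * b) (q * b)]
    have e2 : (p * b - q * b) / 2 = b * ((p - q) / 2) := by ring
    have e3 : Real.exp ((b - 1) * ((p + q) / 2)) = Real.exp ((p * b + q * b) / 2) /
      Real.exp ((p + q) / 2) := by
      rw [← Real.exp_sub]
      congr 1
      ring
    rw [e2, e3]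
    have h4 := (Real.exp_pos ((p + q) / 2)).ne'
    field_simp

/-- the kernel in hyperbolic coordinates -/
theorem ker_exp {a : ℝ} (ha : 0 < a) (m α u ρ p₁ p₂ q₁ q₂ : ℝ) :
    ker a (Real.exp (m + α)) (Real.exp (m - α)) p₁ p₂ q₁ q₂ (Real.exp (u + ρ)) (Real.exp (u - ρ)) =
    (2 * a) * Real.exp ((2 * a - 1) * m) * Real.exp u *
      ((p₁ * q₁ * Real.exp ((2 * a - 1) * α) + p₂ * q₂ * Real.exp (-((2 * a - 1) * α))) *
        sg (2 * a) ρ + p₁ * q₂ * sg (2 * a) (α + ρ) + p₂ * q₁ * sg (2 * a) (α - ρ)) := by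
  have hb : 0 < 2 * a := by linarith
  rw [ker]
  rw [← Real.exp_add, ← Real.exp_add, ← Real.exp_add, ← Real.exp_add, ← Real.exp_add,
    dd_exp hb, dd_exp hb, dd_exp hb, dd_exp hb, ← Real.exp_mul]
  have a1 : (m + α + (u + ρ) - (m + α + (u - ρ))) / 2 = ρ := by ring
  have a2 : (m + α + (u + ρ) - (m - α + (u - ρ))) / 2 = α + ρ := by ring
  have a3 : (m - α + (u + ρ) - (m + α + (u - ρ))) / 2 = -(α - ρ) := by ring
  have a4 : (m - α + (u + ρ) - (m - α + (u - ρ))) / 2 = ρ := by ring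
  rw [a1, a2, a3, a4, sg_neg]
  have b1 : Real.exp ((2 * a - 1) * ((m + α + (u + ρ) + (m + α + (u - ρ))) / 2)) =
    Real.exp ((2 * a - 1) * m) * Real.exp ((2 * a - 1) * α) * Real.exp ((2 * a - 1) * u) := by
    rw [← Real.exp_add, ← Real.exp_add]; congr 1; ring
  have b2 : Real.exp ((2 * a - 1) * ((m + α + (u + ρ) + (m - α + (u - ρ))) / 2)) =
    Real.exp ((2 * a - 1) * m) * Real.exp ((2 * a - 1) * u) := by
    rw [← Real.exp_add]; congr 1; ring
  have b3 : Real.exp ((2 * a - 1) * ((m - α + (u + ρ) + (m + α + (u - ρ))) / 2)) =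
    Real.exp ((2 * a - 1) * m) * Real.exp ((2 * a - 1) * u) := by
    rw [← Real.exp_add]; congr 1; ring
  have b4 : Real.exp ((2 * a - 1) * ((m - α + (u + ρ) + (m - α + (u - ρ))) / 2)) =
    Real.exp ((2 * a - 1) * m) * Real.exp (-((2 * a - 1) * α)) * Real.exp ((2 * a - 1) * u) := by
    rw [← Real.exp_add, ← Real.exp_add]; congr 1; ring
  have b5 : Real.exp ((u + ρ + (u - ρ)) * (1 - a)) * Real.exp ((2 * a - 1) * u) = Real.exp u := by
    rw [← Real.exp_add]; congr 1; ring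
  rw [b1, b2, b3, b4, ← b5]
  ring

end SchW
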