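import Pool.Agent.LibSchW.W1

/-!
# The quantities of `ColOK` in hyperbolic coordinates
-/

open Set

namespace SchW

open SchV Pool.Agent.LibSchP Pool.Agent.LibSchA Pool.Agent.LibSchG

/-- the kernel of the (generalised) column `(V00, V01, V11)`, normalised -/
noncomputable def kV (b α c s V00 V01 V11 ρ : ℝ) : ℝ :=
  c * s * (V00 * Real.exp α - V11 * Real.exp (-α)) * SchV.sg b ρ +
    V01 * (c ^ 2 * SchV.sg b (α + ρ) - s ^ 2 * SchV.sg b (α - ρ))

/-- `ρ₁₁`, normalised -/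
noncomputable def rV (b α c s V00 V01 V11 : ℝ) : ℝ :=
  c ^ 2 * (V00 * Real.exp α) + s ^ 2 * (V11 * Real.exp (-α)) - 2 * (c * s) * (V01 * SchV.sg b α)

/-- `k₃`, normalised -/
noncomputable def kapV (b α c s V00 V01 V11 : ℝ) : ℝ :=
  c * s * (V00 - V11) + (c ^ 2 - s ^ 2) * (V01 * (SchV.sg b α / Real.cosh α))

theorem exp_split {a : ℝ} (α : ℝ) : Real.exp ((2 * a - 2) * α) * Real.exp α =
    Real.exp ((2 * a - 1) * α) := by
  rw [← Real.exp_add]; congr 1; ring

theorem exp_split' {a : ℝ} (α : ℝ) : Real.exp (-((2 * a - 2) * α)) * Real.exp (-α) =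
    Real.exp (-((2 * a - 1) * α)) := by
  rw [← Real.exp_add]; congr 1; ring

theorem kF_exp {a : ℝ} (ha : 0 < a) (m α u ρ c s X Z : ℝ) :
    kF a (Real.exp (m + α)) (Real.exp (m - α)) c s X Z (Real.exp (u + ρ)) (Real.exp (u - ρ)) =
    (2 * a) * Real.exp ((2 * a - 1) * m) * Real.exp u *
      kV (2 * a) α c s (X ^ 2 * Real.exp ((2 * a - 2) * α)) (X * Z)
        (Z ^ 2 * Real.exp (-((2 * a - 2) * α))) ρ := by
  rw [kF, ker_exp ha, kV, ← exp_split (a := a) α, ← exp_split' (a := a) α]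
  ring

theorem r1_exp {a : ℝ} (ha : 0 < a) (m α c s X Z : ℝ) :
    r1 a (Real.exp (m + α)) (Real.exp (m - α)) c s X Z =
    (2 * a) * Real.exp ((2 * a - 1) * m) *
      rV (2 * a) α c s (X ^ 2 * Real.exp ((2 * a - 2) * α)) (X * Z)
        (Z ^ 2 * Real.exp (-((2 * a - 2) * α))) := by
  have h := ker_exp ha m α 0 0 (c * X) (-(s * Z)) (c * X) (-(s * Z))
  rw [add_zero, sub_zero, Real.exp_zero, add_zero, sub_zero, sg_zero] at h
  rw [r1, h, rV, ← exp_split (a := a) α, ← exp_split' (a := a) α]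
  ring

theorem L12_exp {a : ℝ} (ha : 0 < a) {α : ℝ} (hα : 0 < α) (m c s X Z : ℝ) :
    L12 a (Real.exp (m + α)) (Real.exp (m - α)) c s X Z =
    a * Real.exp ((2 * a - 2) * m) *
      kapV (2 * a) α c s (X ^ 2 * Real.exp ((2 * a - 2) * α)) (X * Z)
        (Z ^ 2 * Real.exp (-((2 * a - 2) * α))) := by
  have hs := Real.sinh_pos_iff.2 hα
  have hc := Real.cosh_pos α
  have hb : 0 < 2 * a := by linarith
  have e0 : SchV.sg (2 * a) α = Real.sinh (2 * a * α) / (2 * a * Real.sinh α) := sg_eq hα.ne'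
  have e1 : Real.exp (m + α) ^ (2 * a - 2) =
      Real.exp ((2 * a - 2) * m) * Real.exp ((2 * a - 2) * α) := by
    rw [← Real.exp_mul, ← Real.exp_add]; congr 1; ring
  have e2 : Real.exp (m - α) ^ (2 * a - 2) =
      Real.exp ((2 * a - 2) * m) * Real.exp (-((2 * a - 2) * α)) := by
    rw [← Real.exp_mul, ← Real.exp_add]; congr 1; ring
  have e3 : Real.exp (m + α) ^ (2 * a) - Real.exp (m - α) ^ (2 * a) =
      Real.exp (2 * a * m) * (2 * Real.sinh (2 * a * α)) := by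
    rw [← Real.exp_mul, ← Real.exp_mul, Real.sinh_eq]
    have : Real.exp (2 * a * m) * (2 * ((Real.exp (2 * a * α) - Real.exp (-(2 * a * α))) / 2)) =
      Real.exp (2 * a * m) * Real.exp (2 * a * α) -
        Real.exp (2 * a * m) * Real.exp (-(2 * a * α)) := by ring
    rw [this, ← Real.exp_add, ← Real.exp_add]
    congr 2 <;> ring
  have e4 : Real.exp (m + α) ^ 2 - Real.exp (m - α) ^ 2 =
      Real.exp (2 * m) * (4 * Real.sinh α * Real.cosh α) := by
    have : Real.exp (2 * m) * (4 * Real.sinh α * Real.cosh α) =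
      Real.exp (2 * m) * (2 * Real.sinh (2 * α)) := by rw [Real.sinh_two_mul]; ring
    rw [this, Real.sinh_eq]
    have : Real.exp (2 * m) * (2 * ((Real.exp (2 * α) - Real.exp (-(2 * α))) / 2)) =
      Real.exp (2 * m) * Real.exp (2 * α) - Real.exp (2 * m) * Real.exp (-(2 * α)) := by ring
    rw [this, ← Real.exp_add, ← Real.exp_add, ← Real.exp_nat_mul, ← Real.exp_nat_mul]
    congr 2 <;> (push_cast; ring)
  have e5 : Real.exp (2 * a * m) = Real.exp ((2 * a - 2) * m) * Real.exp (2 * m) := by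
    rw [← Real.exp_add]; congr 1; ring
  have hm := (Real.exp_pos (2 * m)).ne'
  rw [L12, kapV, e1, e2, e3, e4, e5, e0]
  field_simp
  ring

theorem exp_p (m α : ℝ) : Real.exp (m + α) = Real.exp m * (Real.cosh α + Real.sinh α) := by
  rw [Real.exp_add, Real.cosh_add_sinh]

theorem exp_m (m α : ℝ) : Real.exp (m - α) = Real.exp m * (Real.cosh α - Real.sinh α) := by
  rw [sub_eq_add_neg, Real.exp_add, Real.cosh_sub_sinh]

theorem x0_exp (m α c s : ℝ) (hcs : c ^ 2 + s ^ 2 = 1) :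
    x0 (Real.exp (m + α)) (Real.exp (m - α)) c s =
    Real.exp m * (Real.cosh α + (c ^ 2 - s ^ 2) * Real.sinh α) := by
  rw [x0, exp_p, exp_m]
  linear_combination Real.exp m * Real.cosh α * hcs

theorem y0_exp (m α c s : ℝ) (hcs : c ^ 2 + s ^ 2 = 1) :
    y0 (Real.exp (m + α)) (Real.exp (m - α)) c s =
    Real.exp m * (Real.cosh α - (c ^ 2 - s ^ 2) * Real.sinh α) := by
  rw [y0, exp_p, exp_m]
  linear_combination Real.exp m * Real.cosh α * hcs

theorem h0_exp (m α c s : ℝ) :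
    h0 (Real.exp (m + α)) (Real.exp (m - α)) c s =
    Real.exp m * (2 * (c * s)) * Real.sinh α := by
  rw [h0, exp_p, exp_m]
  ring

/-- `q w_q` at the base -/
noncomputable def Wq (a e₁ e₂ : ℝ) : ℝ := wW a e₁ e₂ - wW a e₁ e₂ ^ 2 * bB a e₁ e₂

/-- `w₀` -/
noncomputable def w0 (a : ℝ) : ℝ := (4 - (2 * a) ^ 2) / (3 * (2 * a))

theorem log_exp_div (m α : ℝ) : Real.log (Real.exp (m + α) / Real.exp (m - α)) / 2 = α := by
  rw [← Real.exp_sub, Real.log_exp]; ring

/-- the denominator of `γ` -/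
theorem dN_exp {a : ℝ} {m α c s : ℝ} (hα : 0 < α) (hcs : c ^ 2 + s ^ 2 = 1)
    (hW : 0 < wW a (Real.exp (m + α)) (Real.exp (m - α))) :
    dN a (Real.exp (m + α)) (Real.exp (m - α)) c s =
      16 * (2 * (c * s)) * Real.exp m ^ 3 * Real.sinh α *
      ((w0 a + wW a (Real.exp (m + α)) (Real.exp (m - α))) *
        (1 + (2 * (c * s)) ^ 2 * Real.sinh α ^ 2) +
        (2 * (c * s)) ^ 2 * Wq a (Real.exp (m + α)) (Real.exp (m - α)) *
        (1 + 2 * Real.sinh α ^ 2)) := by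
  have hc := (Real.cosh_pos α).ne'
  have hm := (Real.exp_pos m).ne'
  have hs := (Real.sinh_pos_iff.2 hα).ne'
  have e1 : Real.exp (m + α) - Real.exp (m - α) = Real.exp m * (2 * Real.sinh α) := by
    rw [exp_p, exp_m]
    ring
  have e2 : Real.exp (m + α) + Real.exp (m - α) = Real.exp m * (2 * Real.cosh α) := by
    rw [exp_p, exp_m]
    ring
  rw [dN, x0_exp m α c s hcs, y0_exp m α c s hcs, h0_exp, aA, cc, e1, e2, Wq, ← w0]
  set W := wW a (Real.exp (m + α)) (Real.exp (m - α)) with hWd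
  set B := bB a (Real.exp (m + α)) (Real.exp (m - α)) with hBd
  have hW' : W ≠ 0 := hW.ne'
  have hq : ((Real.exp m * (2 * Real.sinh α)) / (Real.exp m * (2 * Real.cosh α))) ^ 2 =
    Real.sinh α ^ 2 / Real.cosh α ^ 2 := by
    field_simp
  rw [hq]
  have hch : Real.cosh α ^ 2 = 1 + Real.sinh α ^ 2 := by
    have := Real.cosh_sq α; linarith
  have hA : Real.sinh α ^ 2 / Real.cosh α ^ 2 * (1 / W - B) * (Real.exp m * (2 * Real.cosh α)) ^ 2 =
    4 * Real.exp m ^ 2 * Real.sinh α ^ 2 * (1 / W - B) := by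
    field_simp
    ring
  rw [hA]
  have hC : (c ^ 2 - s ^ 2) ^ 2 = 1 - (2 * (c * s)) ^ 2 := by
    linear_combination (c ^ 2 + s ^ 2 + 1) * hcs
  have hxy : (Real.exp m * (Real.cosh α + (c ^ 2 - s ^ 2) * Real.sinh α)) *
    (Real.exp m * (Real.cosh α - (c ^ 2 - s ^ 2) * Real.sinh α)) =
    Real.exp m ^ 2 * (1 + (2 * (c * s)) ^ 2 * Real.sinh α ^ 2) := by
    have : (Real.exp m * (Real.cosh α + (c ^ 2 - s ^ 2) * Real.sinh α)) *
      (Real.exp m * (Real.cosh α - (c ^ 2 - s ^ 2) * Real.sinh α)) =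
      Real.exp m ^ 2 * (Real.cosh α ^ 2 - (c ^ 2 - s ^ 2) ^ 2 * Real.sinh α ^ 2) := by ring
    rw [this, hC, hch]
    ring
  rw [hxy]
  have hS : (2 * c * s) ^ 2 = (2 * (c * s)) ^ 2 := by ring
  rw [hS, hC]
  have hcs2 : c * s = (2 * (c * s)) / 2 := by ring
  set S := 2 * (c * s) with hSd
  rw [hcs2]
  field_simp
  ring

end SchW
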