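import Pool.Agent.LibSchW.W2

/-!
# The negative spring in hyperbolic coordinates
-/

open Set

namespace SchW

open SchV Pool.Agent.LibSchP Pool.Agent.LibSchA Pool.Agent.LibSchG

/-- denominator -/
noncomputable def Den (w0 W Wq S α : ℝ) : ℝ :=
  (w0 + W) * (1 + S ^ 2 * Real.sinh α ^ 2) + S ^ 2 * Wq * (1 + 2 * Real.sinh α ^ 2)

/-- numerator -/
noncomputable def Num (W Wq S C α : ℝ) : ℝ :=
  C ^ 2 * W + S ^ 2 * ((1 + Real.tanh α ^ 2) * Wq)

theorem wW_exp {a : ℝ} (ha : 0 < a) (ha' : 2 * a < 1) {α : ℝ} (hα : 0 < α) (m : ℝ) :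
    wW a (Real.exp (m + α)) (Real.exp (m - α)) =
      (1 - (2 * a) ^ 2) * (4 - (2 * a) ^ 2) / (3 * (2 * a)) * Real.tanh α ^ 2 /
        SchK.Ff (2 * a) α := by
  rw [wW, log_exp_div]
  exact SchK.wf_sub (by linarith) ha' hα

theorem wW_pos {a : ℝ} (ha : 0 < a) (ha' : 2 * a < 1) {α : ℝ} (hα : 0 < α) (m : ℝ) :
    0 < wW a (Real.exp (m + α)) (Real.exp (m - α)) := by
  rw [wW_exp ha ha' hα]
  have h1 := SchK.F_pos (show 0 < 2 * a by linarith) ha' hα
  have h2 := tanh_pos_of hα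
  have h3 : (2 * a) ^ 2 < 1 := by nlinarith
  have h4 : 0 < 1 - (2 * a) ^ 2 := by linarith
  have h5 : 0 < 4 - (2 * a) ^ 2 := by linarith
  positivity

theorem bB_exp {a : ℝ} (m α : ℝ) :
    bB a (Real.exp (m + α)) (Real.exp (m - α)) =
      3 * (2 * a) / ((1 - (2 * a) ^ 2) * (4 - (2 * a) ^ 2)) * SchK.F1 (2 * a) α := by
  rw [bB, log_exp_div]

theorem bB_neg {a : ℝ} (ha : 0 < a) (ha' : 2 * a < 1) {α : ℝ} (hα : 0 < α) (m : ℝ) :
    bB a (Real.exp (m + α)) (Real.exp (m - α)) < 0 := by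
  rw [bB_exp]
  have h1 := SchK.F1_neg (show 0 < 2 * a by linarith) ha' hα
  have h3 : (2 * a) ^ 2 < 1 := by nlinarith
  have h4 : 0 < 1 - (2 * a) ^ 2 := by linarith
  have h5 : 0 < 4 - (2 * a) ^ 2 := by linarith
  exact mul_neg_of_pos_of_neg (by positivity) h1

theorem Wq_exp {a : ℝ} (ha : 0 < a) (ha' : 2 * a < 1) {α : ℝ} (hα : 0 < α) (m : ℝ) :
    Wq a (Real.exp (m + α)) (Real.exp (m - α)) * SchK.Ff (2 * a) α =
      wW a (Real.exp (m + α)) (Real.exp (m - α)) *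
        (SchK.Ff (2 * a) α - Real.tanh α ^ 2 * SchK.F1 (2 * a) α) := by
  rw [Wq, bB_exp, wW_exp ha ha' hα]
  have h1 := (SchK.F_pos (show 0 < 2 * a by linarith) ha' hα).ne'
  have h3 : (2 * a) ^ 2 < 1 := by nlinarith
  have h4 : 1 - (2 * a) ^ 2 ≠ 0 := by linarith
  have h5 : 4 - (2 * a) ^ 2 ≠ 0 := by linarith
  have h6 := ha.ne'
  field_simp

theorem Wq_ge {a : ℝ} (ha : 0 < a) (ha' : 2 * a < 1) {α : ℝ} (hα : 0 < α) (m : ℝ) :
    wW a (Real.exp (m + α)) (Real.exp (m - α)) ≤ Wq a (Real.exp (m + α)) (Real.exp (m - α)) := by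
  have h1 := bB_neg ha ha' hα m
  rw [Wq]
  nlinarith [mul_nonneg (sq_nonneg (wW a (Real.exp (m + α)) (Real.exp (m - α)))) (neg_nonneg.2 h1.le)]

theorem w0_pos {a : ℝ} (ha : 0 < a) (ha' : 2 * a < 1) : 0 < w0 a := by
  have h3 : (2 * a) ^ 2 < 1 := by nlinarith
  have h5 : 0 < 4 - (2 * a) ^ 2 := by linarith
  rw [w0]
  positivity

theorem Den_pos {w0 W Wq S α : ℝ} (h0 : 0 < w0) (hW : 0 < W) (hq : 0 ≤ Wq) :
    0 < Den w0 W Wq S α := by
  rw [Den]
  positivity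

/-- the negative spring -/
theorem pS_exp {a : ℝ} (ha : 0 < a) (ha' : 2 * a < 1) {m α c s : ℝ} (hα : 0 < α) (hc : 0 < c)
    (hs : 0 < s) (hcs : c ^ 2 + s ^ 2 = 1) (X Z : ℝ) :
    pS a (Real.exp (m + α)) (Real.exp (m - α)) c s X Z =
      L12 a (Real.exp (m + α)) (Real.exp (m - α)) c s X Z * (Real.exp m ^ 2 *
        (Real.cosh α * (Real.cosh α + (c ^ 2 - s ^ 2) * Real.sinh α)) * (2 * (c * s)) *
        ((c ^ 2 - s ^ 2) * Num (wW a (Real.exp (m + α)) (Real.exp (m - α)))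
          (Wq a (Real.exp (m + α)) (Real.exp (m - α))) (2 * (c * s)) (c ^ 2 - s ^ 2) α /
        Den (w0 a) (wW a (Real.exp (m + α)) (Real.exp (m - α)))
          (Wq a (Real.exp (m + α)) (Real.exp (m - α))) (2 * (c * s)) α)) := by
  have hW := wW_pos ha ha' hα m
  have hWq := (wW_pos ha ha' hα m).le.trans (Wq_ge ha ha' hα m)
  have hD := (Den_pos (S := 2 * (c * s)) (α := α) (w0_pos ha ha') hW hWq).ne'
  have hch := (Real.cosh_pos α).ne'
  have hm := (Real.exp_pos m).ne'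
  have hsh := (Real.sinh_pos_iff.2 hα).ne'
  have hS : 2 * (c * s) ≠ 0 := by positivity
  have e1 : Real.exp (m + α) - Real.exp (m - α) = Real.exp m * (2 * Real.sinh α) := by
    rw [exp_p, exp_m]; ring
  have e2 : Real.exp (m + α) + Real.exp (m - α) = Real.exp m * (2 * Real.cosh α) := by
    rw [exp_p, exp_m]; ring
  have e3 : Real.exp (m + α) * Real.exp (m - α) = Real.exp m ^ 2 := by
    rw [← Real.exp_add, ← Real.exp_nat_mul]; congr 1; push_cast; ring
  -- the bracket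
  have key : wW a (Real.exp (m + α)) (Real.exp (m - α)) *
      (1 + 2 * cc a (Real.exp (m + α)) (Real.exp (m - α)) c s * (2 * c * s) *
        (aA a (Real.exp (m + α)) (Real.exp (m - α)) -
          bB a (Real.exp (m + α)) (Real.exp (m - α)))) =
      Num (wW a (Real.exp (m + α)) (Real.exp (m - α)))
          (Wq a (Real.exp (m + α)) (Real.exp (m - α))) (2 * (c * s)) (c ^ 2 - s ^ 2) α := by
    have hq : ((Real.exp m * (2 * Real.sinh α)) / (Real.exp m * (2 * Real.cosh α))) ^ 2 =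
      Real.tanh α ^ 2 := by
      rw [Real.tanh_eq_sinh_div_cosh]
      field_simp
    rw [aA, cc, e1, e2, hq, Num, Wq]
    set W := wW a (Real.exp (m + α)) (Real.exp (m - α)) with hWd
    set B := bB a (Real.exp (m + α)) (Real.exp (m - α)) with hBd
    have hC : (c ^ 2 - s ^ 2) ^ 2 = 1 - (2 * (c * s)) ^ 2 := by
      linear_combination (c ^ 2 + s ^ 2 + 1) * hcs
    have hW' : W ≠ 0 := hW.ne'
    rw [hC]
    field_simp
    ring
  have hdN := dN_exp (a := a) (m := m) hα hcs hW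
  rw [pS, gD, hdN, x0_exp m α c s hcs, h0_exp, e2, e3]
  have hc' : cc a (Real.exp (m + α)) (Real.exp (m - α)) c s =
    c * s * wW a (Real.exp (m + α)) (Real.exp (m - α)) := rfl
  rw [← key]
  have hDe : (w0 a + wW a (Real.exp (m + α)) (Real.exp (m - α))) *
        (1 + (2 * (c * s)) ^ 2 * Real.sinh α ^ 2) +
        (2 * (c * s)) ^ 2 * Wq a (Real.exp (m + α)) (Real.exp (m - α)) *
        (1 + 2 * Real.sinh α ^ 2) = Den (w0 a) (wW a (Real.exp (m + α)) (Real.exp (m - α)))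
          (Wq a (Real.exp (m + α)) (Real.exp (m - α))) (2 * (c * s)) α := rfl
  rw [hDe]
  generalize Den (w0 a) (wW a (Real.exp (m + α)) (Real.exp (m - α)))
          (Wq a (Real.exp (m + α)) (Real.exp (m - α))) (2 * (c * s)) α = De at *
  generalize (1 + 2 * cc a (Real.exp (m + α)) (Real.exp (m - α)) c s * (2 * c * s) *
        (aA a (Real.exp (m + α)) (Real.exp (m - α)) -
          bB a (Real.exp (m + α)) (Real.exp (m - α)))) = br at *
  rw [hc']
  generalize wW a (Real.exp (m + α)) (Real.exp (m - α)) = W at *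
  have hc0 := hc.ne'
  have hs0 := hs.ne'
  field_simp
  ring

end SchW
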