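import Pool.Agent.LibSchW.W3

/-!
# The vertex lemma and the assembly of `ColOK`
-/

open Set

namespace SchW

open SchV Pool.Agent.LibSchP Pool.Agent.LibSchA Pool.Agent.LibSchG

/-- the quadratic form at the vertex `V₀` -/
theorem quad_V0 {kb kd x y κ : ℝ} (hkb : 0 < kb) (hkd : 0 ≤ kd) (h0 : 0 ≤ κ)
    (h1 : κ ≤ kb * x + kd * y) (h : ℝ) :
    kb * (kb + kd) / (kb + (kb + kd)) * (x - h) ^ 2 ≤
      kb * x ^ 2 + kd * y ^ 2 + (kb + kd) * h ^ 2 - 2 * κ * h := by
  have hD : 0 < kb + (kb + kd) := by linarith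
  rw [div_mul_eq_mul_div, div_le_iff₀ hD]
  rcases le_or_gt h 0 with hh | hh
  · have h2 : 0 ≤ κ * (-h) * (kb + (kb + kd)) := by
      have : 0 ≤ -h := by linarith
      positivity
    nlinarith [sq_nonneg (kb * x + (kb + kd) * h), mul_nonneg (mul_nonneg hD.le hkd) (sq_nonneg y)]
  · have h2 : 0 ≤ (kb * x + kd * y - κ) * h * (kb + (kb + kd)) :=
      mul_nonneg (mul_nonneg (by linarith) hh.le) hD.le
    nlinarith [sq_nonneg (kb * (x - h)), mul_nonneg (mul_nonneg hD.le hkd) (sq_nonneg (y - h))]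

/-- `hh = sg α / cosh α` -/
noncomputable def hh (b α : ℝ) : ℝ := SchV.sg b α / Real.cosh α

noncomputable def Dn (b α C : ℝ) : ℝ := 1 - C ^ 2 + C ^ 2 * hh b α ^ 2

noncomputable def R0 (b α C : ℝ) : ℝ := √(Dn b α C)

/-- `x`-spring at `V₀` -/
noncomputable def alh (b α C : ℝ) : ℝ :=
  (Real.cosh α + C * Real.sinh α) *
    (C * Real.cosh α + Real.sinh α - C * (hh b α * SchV.sg b α))

noncomputable def kbh (b α C : ℝ) : ℝ :=
  Real.sinh α * (Real.cosh α * Dn b α C - C * hh b α * (nu b α * m0 b α))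

noncomputable def kdh (b α C : ℝ) : ℝ :=
  Real.sinh α * (Real.cosh α * Dn b α C + C * hh b α * (nu b α * m0 b α))

/-- the negative spring at `V₀` -/
noncomputable def Nh (b α C w0 W Wq : ℝ) : ℝ :=
  Dn b α C * (Real.cosh α * (Real.cosh α + C * Real.sinh α)) * (C *
    (C ^ 2 * W + (1 - C ^ 2) * ((1 + Real.tanh α ^ 2) * Wq)) /
    ((w0 + W) * (1 + (1 - C ^ 2) * Real.sinh α ^ 2) +
      (1 - C ^ 2) * Wq * (1 + 2 * Real.sinh α ^ 2)))

/-- the facts at the three vertices -/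
structure VF (b α C w0 W Wq : ℝ) : Prop where
  low : ∀ y, 0 ≤ K0f b α C y
  up : ∀ y, K0f b α C y ≤ ((1 - C ^ 2) * Real.cosh α ^ 2 + C ^ 2 * SchV.sg b α ^ 2) * Real.cosh y -
      C * SchV.sg b α * (nu b α * m0 b α) * Real.sinh y
  minus : ∀ y, (R0 b α C * Real.sinh α * SchV.sg b y - Jf b α C y) ^ 2 ≤
      R0 b α C * Real.sinh α * (R0 b α C * Real.sinh α * Real.cosh (2 * y) +
        nu b α * m0 b α * Real.sinh (2 * y))
  plus : ∀ y, (R0 b α C * Real.sinh α * SchV.sg b y + Jf b α C y) ^ 2 ≤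
      R0 b α C * Real.sinh α * (R0 b α C * Real.sinh α * Real.cosh (2 * y) -
        nu b α * m0 b α * Real.sinh (2 * y))
  v1 : Nh b α C w0 W Wq * (alh b α C * kbh b α C + alh b α C * (kbh b α C + kdh b α C) +
      kbh b α C * (kbh b α C + kdh b α C)) ≤
      alh b α C * kbh b α C * (kbh b α C + kdh b α C)

section

variable {b : ℝ} (hb0 : 0 < b) (hb1 : b < 1) {α C : ℝ} (hα : 0 < α) (hC0 : 0 ≤ C) (hC1 : C ≤ 1)

include hb0 in
theorem hh_pos : 0 < hh b α := div_pos (SchV.sg_pos hb0 α) (Real.cosh_pos α)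

include hb0 hb1 in
theorem hh_le : hh b α ≤ 1 := by
  rw [hh, div_le_one (Real.cosh_pos α)]
  exact SchV.sg_le_cosh hb0 hb1 α

theorem hh_mul : hh b α * Real.cosh α = SchV.sg b α := by
  rw [hh, div_mul_cancel₀ _ (Real.cosh_pos α).ne']

include hb0 hb1 hC0 hC1 in
theorem Dn_ge : C * hh b α ^ 2 ≤ Dn b α C := by
  have h1 := hh_le hb0 hb1 (α := α)
  have h2 := hh_pos hb0 (α := α)
  rw [Dn]
  have h3 : hh b α ^ 2 ≤ 1 := by nlinarith
  have h4 : 0 ≤ (1 - C) * (1 + C - C * hh b α ^ 2) :=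
    mul_nonneg (by linarith) (by nlinarith [mul_nonneg hC0 (sub_nonneg.2 h3)])
  nlinarith

include hb0 hC0 hC1 in
theorem Dn_pos : 0 < Dn b α C := by
  have h2 := hh_pos hb0 (α := α)
  rw [Dn]
  rcases hC1.eq_or_lt with h | h
  · subst h
    have : 0 < hh b α ^ 2 := by positivity
    linarith
  · have : 0 < 1 - C ^ 2 := by nlinarith
    positivity

include hb0 hb1 hC0 hC1 in
theorem hh_sq_le_Dn : hh b α ^ 2 ≤ Dn b α C := by
  have h1 := hh_le hb0 hb1 (α := α)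
  have h2 := hh_pos hb0 (α := α)
  have h3 : hh b α ^ 2 ≤ 1 := by nlinarith
  have h4 : C ^ 2 ≤ 1 := by nlinarith
  rw [Dn]
  nlinarith [mul_nonneg (sub_nonneg.2 h4) (sub_nonneg.2 h3)]

include hb0 hb1 hα in
theorem m0_eq : m0 b α = hh b α * Real.sinh α := by
  rw [m0, ← hh_mul (b := b) (α := α), sinh_eq_mul α]
  ring

include hb0 hb1 hα hC0 hC1 in
theorem kbh_pos : 0 < kbh b α C := by
  have h1 := Dn_ge hb0 hb1 hC0 hC1 (α := α)
  have h2 := hh_pos hb0 (α := α)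
  have h3 := Real.sinh_pos_iff.2 hα
  have h4 := Real.sinh_lt_cosh α
  have h5 := nu_le hb0 hb1 hα
  have h6 := nu_pos hb0 hb1 hα
  have h7 := Dn_pos hb0 hC0 hC1 (α := α)
  have hc := Real.cosh_pos α
  rw [kbh, m0_eq hb0 hb1 hα]
  refine mul_pos h3 ?_
  have h8 : C * hh b α * (nu b α * (hh b α * Real.sinh α)) ≤ Dn b α C * Real.sinh α := by
    have e : C * hh b α * (nu b α * (hh b α * Real.sinh α)) =
      (C * hh b α ^ 2) * (nu b α) * Real.sinh α := by ring
    rw [e]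
    refine mul_le_mul_of_nonneg_right ?_ h3.le
    have h9 : 0 ≤ C * hh b α ^ 2 := by positivity
    nlinarith
  nlinarith

include hb0 hb1 hα hC0 hC1 in
theorem kdh_nonneg : 0 ≤ kdh b α C := by
  have h2 := hh_pos hb0 (α := α)
  have h3 := Real.sinh_pos_iff.2 hα
  have h6 := nu_pos hb0 hb1 hα
  have h7 := Dn_pos hb0 hC0 hC1 (α := α)
  have hm := m0_pos hb0 hα
  rw [kdh]
  positivity

include hb0 hb1 hα hC0 in
theorem alh_pos : 0 < alh b α C := by
  have h1 := hh_le hb0 hb1 (α := α)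
  have h2 := hh_pos hb0 (α := α)
  have h3 := Real.sinh_pos_iff.2 hα
  have hc := Real.cosh_pos α
  rw [alh]
  refine mul_pos (by positivity) ?_
  have h4 : hh b α * SchV.sg b α ≤ Real.cosh α := by
    rw [← hh_mul (b := b) (α := α)]
    have : hh b α * (hh b α * Real.cosh α) = hh b α ^ 2 * Real.cosh α := by ring
    rw [this]
    have : hh b α ^ 2 ≤ 1 := by nlinarith
    nlinarith
  nlinarith [mul_le_mul_of_nonneg_left h4 hC0]

end

/-- elimination: parallel sums -/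
theorem par_sum {N al pt A rest : ℝ} (hA : 0 ≤ A) (hr : 0 ≤ rest) (hal : 0 < al) (hpt : 0 ≤ pt)
    (hN : 0 ≤ N) (h : N * (al + pt) ≤ al * pt) :
    A * N * (A * al + rest + A * pt) ≤ (A * al + rest) * (A * pt) := by
  have h1 : N ≤ pt := by
    have : N * al ≤ pt * al := by nlinarith [mul_nonneg hN hpt]
    exact le_of_mul_le_mul_right this hal
  nlinarith [mul_nonneg (mul_nonneg hA hA) (sub_nonneg.2 h),
    mul_nonneg (mul_nonneg hA hr) (sub_nonneg.2 h1)]

end SchW
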