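import Pool.Agent.LibSchW.W4

/-!
# The cone decomposition and the assembly
-/

open Set

namespace SchW

open SchV Pool.Agent.LibSchP Pool.Agent.LibSchA Pool.Agent.LibSchG

/-- the cone of the increasing columns is generated by the flat columns and `V₀` -/
theorem cone_dec {S C h R V00 V01 V11 : ℝ} (hS : 0 < S) (hR : 0 < R)
    (hR2 : R ^ 2 = S ^ 2 + C ^ 2 * h ^ 2) (hV : 0 < V00) (hVV : V00 * V11 = V01 ^ 2)
    (hk : 0 ≤ S / 2 * (V00 - V11) + C * (V01 * h)) :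
    ∃ E F Ap Am A0 : ℝ, 0 < E ∧ 0 < F ∧ E * F = 1 ∧ S * E = C * h + R ∧ S * F = R - C * h ∧
      0 ≤ Ap ∧ 0 ≤ Am ∧ 0 ≤ A0 ∧ V00 = Ap * F + Am * E + A0 * S ∧
      V01 = Ap - Am + A0 * (C * h) ∧ V11 = Ap * E + Am * F - A0 * S ∧
      S / 2 * (V00 - V11) + C * (V01 * h) = A0 * R ^ 2 := by
  have hch : |C * h| < R := by
    rw [abs_lt]
    constructor
    · nlinarith [sq_nonneg (C * h + R), sq_nonneg (C * h - R), pow_pos hS 2]
    · nlinarith [sq_nonneg (C * h + R), sq_nonneg (C * h - R), pow_pos hS 2]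
  rw [abs_lt] at hch
  obtain ⟨E, hE⟩ : ∃ E, E = (C * h + R) / S := ⟨_, rfl⟩
  obtain ⟨F, hF⟩ : ∃ F, F = (R - C * h) / S := ⟨_, rfl⟩
  have hE1 : S * E = C * h + R := by rw [hE]; field_simp
  have hF1 : S * F = R - C * h := by rw [hF]; field_simp
  have hE0 : 0 < E := by rw [hE]; exact div_pos (by linarith) hS
  have hF0 : 0 < F := by rw [hF]; exact div_pos (by linarith) hS
  have hEF : E * F = 1 := by
    have : S ^ 2 * (E * F) = S ^ 2 := by
      have : S ^ 2 * (E * F) = (S * E) * (S * F) := by ring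
      rw [this, hE1, hF1]
      nlinarith
    exact mul_left_cancel₀ (pow_ne_zero 2 hS.ne') (by linarith)
  set P := V01 + V00 * F with hP
  set Q := V00 * E - V01 with hQ
  set D := E + F with hD
  have hD0 : 0 < D := by positivity
  have hPQ : P + Q = V00 * D := by rw [hP, hQ, hD]; ring
  have hPQ2 : S * (P * Q) = V00 * (2 * (S / 2 * (V00 - V11) + C * (V01 * h))) := by
    have e1 : S * (P * Q) = V01 * V00 * (S * E - S * F) + S * V00 ^ 2 * (E * F) - S * V01 ^ 2 := by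
      rw [hP, hQ]; ring
    rw [e1, hE1, hF1, hEF, ← hVV]
    ring
  have hPQ0 : 0 ≤ P * Q := by
    have : 0 ≤ S * (P * Q) := by rw [hPQ2]; positivity
    exact nonneg_of_mul_nonneg_right this hS
  have hsum : 0 < P + Q := by rw [hPQ]; positivity
  have hP0 : 0 ≤ P := by
    by_contra hc
    push Not at hc
    have : 0 < Q := by linarith
    nlinarith
  have hQ0 : 0 ≤ Q := by
    by_contra hc
    push Not at hc
    have : 0 < P := by linarith
    nlinarith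
  have hK : 0 < V00 * D ^ 2 := by positivity
  have hSD : S ^ 2 * D ^ 2 = 4 * R ^ 2 := by
    have : S ^ 2 * D ^ 2 = (S * E + S * F) ^ 2 := by rw [hD]; ring
    rw [this, hE1, hF1]
    ring
  have hd : S * (E - F) = 2 * (C * h) := by linear_combination hE1 - hF1
  refine ⟨E, F, P ^ 2 * E / (V00 * D ^ 2), Q ^ 2 * F / (V00 * D ^ 2),
    2 * (P * Q) / S / (V00 * D ^ 2), hE0, hF0, hEF, hE1, hF1, by positivity, by positivity,
    by positivity, ?_, ?_, ?_, ?_⟩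
  · have : P ^ 2 * E / (V00 * D ^ 2) * F + Q ^ 2 * F / (V00 * D ^ 2) * E +
      2 * (P * Q) / S / (V00 * D ^ 2) * S =
      (P ^ 2 * (E * F) + Q ^ 2 * (E * F) + 2 * (P * Q)) / (V00 * D ^ 2) := by
      field_simp
    rw [this, hEF, eq_div_iff hK.ne']
    have : P ^ 2 * 1 + Q ^ 2 * 1 + 2 * (P * Q) = (P + Q) ^ 2 := by ring
    rw [this, hPQ]
    ring
  · have : P ^ 2 * E / (V00 * D ^ 2) - Q ^ 2 * F / (V00 * D ^ 2) +
      2 * (P * Q) / S / (V00 * D ^ 2) * (C * h) =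
      (P ^ 2 * E - Q ^ 2 * F + (P * Q) * (2 * (C * h) / S)) / (V00 * D ^ 2) := by
      field_simp
    rw [this, eq_div_iff hK.ne']
    have h1 : 2 * (C * h) / S = E - F := by
      rw [div_eq_iff hS.ne']; linarith
    rw [h1]
    have h2 : P ^ 2 * E - Q ^ 2 * F + P * Q * (E - F) = (P + Q) * (P * E - Q * F) := by ring
    have h3 : P * E - Q * F = V01 * D := by
      rw [hP, hQ, hD]; ring
    rw [h2, hPQ, h3]
    ring
  · have : P ^ 2 * E / (V00 * D ^ 2) * E + Q ^ 2 * F / (V00 * D ^ 2) * F -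
      2 * (P * Q) / S / (V00 * D ^ 2) * S =
      (P ^ 2 * E ^ 2 + Q ^ 2 * F ^ 2 - 2 * (P * Q)) / (V00 * D ^ 2) := by
      field_simp
    rw [this, eq_div_iff hK.ne']
    have h3 : P * E - Q * F = V01 * D := by
      rw [hP, hQ, hD]; ring
    have h2 : P ^ 2 * E ^ 2 + Q ^ 2 * F ^ 2 - 2 * (P * Q) = (P * E - Q * F) ^ 2 := by
      linear_combination (2 * P * Q) * hEF
    rw [h2, h3]
    linear_combination D ^ 2 * hVV
  · have : 2 * (P * Q) / S / (V00 * D ^ 2) * R ^ 2 =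
      2 * (S * (P * Q)) * R ^ 2 / (V00 * (S ^ 2 * D ^ 2)) := by
      field_simp
    rw [this, hSD, hPQ2]
    field_simp
    ring

/-- linearity of `kV` -/
theorem kV_lin (b α c s : ℝ) (Ap Am A0 x0 x1 x2 y0 y1 y2 z0 z1 z2 ρ : ℝ) :
    kV b α c s (Ap * x0 + Am * y0 + A0 * z0) (Ap * x1 + Am * y1 + A0 * z1)
      (Ap * x2 + Am * y2 + A0 * z2) ρ =
    Ap * kV b α c s x0 x1 x2 ρ + Am * kV b α c s y0 y1 y2 ρ + A0 * kV b α c s z0 z1 z2 ρ := by
  rw [kV, kV, kV, kV]; ring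

theorem rV_lin (b α c s : ℝ) (Ap Am A0 x0 x1 x2 y0 y1 y2 z0 z1 z2 : ℝ) :
    rV b α c s (Ap * x0 + Am * y0 + A0 * z0) (Ap * x1 + Am * y1 + A0 * z1)
      (Ap * x2 + Am * y2 + A0 * z2) =
    Ap * rV b α c s x0 x1 x2 + Am * rV b α c s y0 y1 y2 + A0 * rV b α c s z0 z1 z2 := by
  rw [rV, rV, rV, rV]; ring

/-- the kernel of `V₊` -/
theorem kV_plus {b α c s E F R : ℝ} (hcs : c ^ 2 + s ^ 2 = 1)
    (hE : 2 * (c * s) * E = (c ^ 2 - s ^ 2) * hh b α + R)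
    (hF : 2 * (c * s) * F = R - (c ^ 2 - s ^ 2) * hh b α) (ρ : ℝ) :
    kV b α c s F 1 E ρ = R * Real.sinh α * SchV.sg b ρ + Jf b α (c ^ 2 - s ^ 2) ρ := by
  have hc2 : c ^ 2 = (1 + (c ^ 2 - s ^ 2)) / 2 := by linarith
  have hs2 : s ^ 2 = (1 - (c ^ 2 - s ^ 2)) / 2 := by linarith
  have h1 : c * s * (F * Real.exp α - E * Real.exp (-α)) =
      R * Real.sinh α - (c ^ 2 - s ^ 2) * SchV.sg b α := by
    rw [← hh_mul (b := b) (α := α), ← Real.cosh_add_sinh α, ← Real.cosh_sub_sinh α]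
    linear_combination (Real.cosh α + Real.sinh α) / 2 * hF -
      (Real.cosh α - Real.sinh α) / 2 * hE
  rw [kV, h1, Jf]
  linear_combination SchV.sg b (α + ρ) * hc2 - SchV.sg b (α - ρ) * hs2

/-- the kernel of `V₋` -/
theorem kV_minus {b α c s E F R : ℝ} (hcs : c ^ 2 + s ^ 2 = 1)
    (hE : 2 * (c * s) * E = (c ^ 2 - s ^ 2) * hh b α + R)
    (hF : 2 * (c * s) * F = R - (c ^ 2 - s ^ 2) * hh b α) (ρ : ℝ) :
    kV b α c s E (-1) F ρ = R * Real.sinh α * SchV.sg b ρ - Jf b α (c ^ 2 - s ^ 2) ρ := by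
  have hc2 : c ^ 2 = (1 + (c ^ 2 - s ^ 2)) / 2 := by linarith
  have hs2 : s ^ 2 = (1 - (c ^ 2 - s ^ 2)) / 2 := by linarith
  have h1 : c * s * (E * Real.exp α - F * Real.exp (-α)) =
      R * Real.sinh α + (c ^ 2 - s ^ 2) * SchV.sg b α := by
    rw [← hh_mul (b := b) (α := α), ← Real.cosh_add_sinh α, ← Real.cosh_sub_sinh α]
    linear_combination (Real.cosh α + Real.sinh α) / 2 * hE -
      (Real.cosh α - Real.sinh α) / 2 * hF
  rw [kV, h1, Jf]
  linear_combination (-SchV.sg b (α + ρ)) * hc2 + SchV.sg b (α - ρ) * hs2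

/-- the kernel of `V₀` -/
theorem kV_zero {b α c s : ℝ} (hcs : c ^ 2 + s ^ 2 = 1) (ρ : ℝ) :
    kV b α c s (2 * (c * s)) ((c ^ 2 - s ^ 2) * hh b α) (-(2 * (c * s))) ρ * Real.cosh α =
      K0f b α (c ^ 2 - s ^ 2) ρ := by
  have hc2 : c ^ 2 = (1 + (c ^ 2 - s ^ 2)) / 2 := by linarith
  have hs2 : s ^ 2 = (1 - (c ^ 2 - s ^ 2)) / 2 := by linarith
  have hC : 1 - (c ^ 2 - s ^ 2) ^ 2 = (2 * (c * s)) ^ 2 := by
    linear_combination (-(c ^ 2 + s ^ 2 + 1)) * hcs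
  rw [kV, K0f, hC, ← hh_mul (b := b) (α := α), ← Real.cosh_add_sinh α, ← Real.cosh_sub_sinh α]
  linear_combination (c ^ 2 - s ^ 2) * hh b α * Real.cosh α * SchV.sg b (α + ρ) * hc2 -
    (c ^ 2 - s ^ 2) * hh b α * Real.cosh α * SchV.sg b (α - ρ) * hs2

end SchW
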