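import Pool.Agent.LibSchW.W5

/-!
# The assembly of `ColOK`
-/

open Set

namespace SchW

open SchV Pool.Agent.LibSchP Pool.Agent.LibSchA Pool.Agent.LibSchG

/-- the normalised network form of a generalised column -/
noncomputable def frm (b α c s V00 V01 V11 ρ h : ℝ) : ℝ :=
  2 * Real.sinh α * (kV b α c s V00 V01 V11 0 * Real.cosh (2 * ρ) -
    V01 * (nu b α * m0 b α) * Real.sinh (2 * ρ) + kV b α c s V00 V01 V11 0 * h ^ 2 -
    2 * kV b α c s V00 V01 V11 ρ * h)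

theorem frm_lin (b α c s : ℝ) (Ap Am A0 x0 x1 x2 y0 y1 y2 z0 z1 z2 ρ h : ℝ) :
    frm b α c s (Ap * x0 + Am * y0 + A0 * z0) (Ap * x1 + Am * y1 + A0 * z1)
      (Ap * x2 + Am * y2 + A0 * z2) ρ h =
    Ap * frm b α c s x0 x1 x2 ρ h + Am * frm b α c s y0 y1 y2 ρ h +
      A0 * frm b α c s z0 z1 z2 ρ h := by
  rw [frm, frm, frm, frm, kV_lin, kV_lin]; ring

theorem sq_form {m k q h : ℝ} (hm : 0 < m) (hk : k ^ 2 ≤ m * q) :
    0 ≤ q + m * h ^ 2 - 2 * k * h := by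
  have h1 : 0 ≤ m * (q + m * h ^ 2 - 2 * k * h) := by nlinarith [sq_nonneg (m * h - k)]
  exact nonneg_of_mul_nonneg_right h1 hm

theorem Jf_zero (b α C : ℝ) : Jf b α C 0 = 0 := by
  rw [Jf, sg_zero, add_zero, sub_zero]; ring

section

variable {b : ℝ} (hb0 : 0 < b) (hb1 : b < 1) {α c s : ℝ} (hα : 0 < α) (hs : 0 < s) (hsc : s ≤ c)
  (hcs : c ^ 2 + s ^ 2 = 1) {w0 W Wq : ℝ} (H : VF b α (c ^ 2 - s ^ 2) w0 W Wq)

include hs hsc in
theorem C_nonneg : 0 ≤ c ^ 2 - s ^ 2 := by nlinarith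

include hs hcs in
theorem C_le : c ^ 2 - s ^ 2 ≤ 1 := by nlinarith

include hb0 hα hs hsc hcs H in
theorem frm_plus {E F : ℝ} (hE : 2 * (c * s) * E = (c ^ 2 - s ^ 2) * hh b α + R0 b α (c ^ 2 - s ^ 2))
    (hF : 2 * (c * s) * F = R0 b α (c ^ 2 - s ^ 2) - (c ^ 2 - s ^ 2) * hh b α) (ρ h : ℝ) :
    0 ≤ frm b α c s F 1 E ρ h := by
  have hD := Dn_pos hb0 (C_nonneg hs hsc) (C_le hs hcs) (α := α)
  have hR : 0 < R0 b α (c ^ 2 - s ^ 2) := Real.sqrt_pos.2 hD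
  have hsh := Real.sinh_pos_iff.2 hα
  rw [frm, kV_plus hcs hE hF, kV_plus hcs hE hF, sg_zero, Jf_zero, mul_one, add_zero, one_mul]
  refine mul_nonneg (by positivity) ?_
  exact sq_form (mul_pos hR hsh) (H.plus ρ)

include hb0 hα hs hsc hcs H in
theorem frm_minus {E F : ℝ} (hE : 2 * (c * s) * E = (c ^ 2 - s ^ 2) * hh b α + R0 b α (c ^ 2 - s ^ 2))
    (hF : 2 * (c * s) * F = R0 b α (c ^ 2 - s ^ 2) - (c ^ 2 - s ^ 2) * hh b α) (ρ h : ℝ) :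
    0 ≤ frm b α c s E (-1) F ρ h := by
  have hD := Dn_pos hb0 (C_nonneg hs hsc) (C_le hs hcs) (α := α)
  have hR : 0 < R0 b α (c ^ 2 - s ^ 2) := Real.sqrt_pos.2 hD
  have hsh := Real.sinh_pos_iff.2 hα
  rw [frm, kV_minus hcs hE hF, kV_minus hcs hE hF, sg_zero, Jf_zero, mul_one, sub_zero]
  refine mul_nonneg (by positivity) ?_
  have := sq_form (h := h) (mul_pos hR hsh) (H.minus ρ)
  linarith

/-- the bound of `pt` at `V₀` -/
noncomputable def pt0 (b α C : ℝ) : ℝ :=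
  kbh b α C * (kbh b α C + kdh b α C) / (kbh b α C + (kbh b α C + kdh b α C))

include hb0 hb1 hα hs hsc hcs H in
theorem frm_zero (ρ h : ℝ) :
    pt0 b α (c ^ 2 - s ^ 2) * (Real.exp ρ - h) ^ 2 ≤
      frm b α c s (2 * (c * s)) ((c ^ 2 - s ^ 2) * hh b α) (-(2 * (c * s))) ρ h := by
  have hC0 := C_nonneg hs hsc
  have hC1 := C_le hs hcs
  have hsh := Real.sinh_pos_iff.2 hα
  have hch := Real.cosh_pos α
  have hkb := kbh_pos hb0 hb1 hα hC0 hC1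
  have hkd := kdh_nonneg hb0 hb1 hα hC0 hC1
  have hk0 : ∀ y, kV b α c s (2 * (c * s)) ((c ^ 2 - s ^ 2) * hh b α) (-(2 * (c * s))) y =
    K0f b α (c ^ 2 - s ^ 2) y / Real.cosh α := fun y => by
    rw [eq_div_iff hch.ne', kV_zero hcs]
  have hK : K0f b α (c ^ 2 - s ^ 2) 0 / Real.cosh α = Real.cosh α * Dn b α (c ^ 2 - s ^ 2) := by
    rw [div_eq_iff hch.ne', K0f, sg_zero, add_zero, sub_zero, ← hh_mul (b := b) (α := α), Dn]
    ring
  set κ := 2 * Real.sinh α * (K0f b α (c ^ 2 - s ^ 2) ρ / Real.cosh α) with hκ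
  have h1 : 0 ≤ κ := by
    have := H.low ρ
    rw [hκ]; positivity
  have h2 : κ ≤ kbh b α (c ^ 2 - s ^ 2) * Real.exp ρ + kdh b α (c ^ 2 - s ^ 2) * Real.exp (-ρ) := by
    have h3 := H.up ρ
    have h4 : K0f b α (c ^ 2 - s ^ 2) ρ / Real.cosh α ≤
      Real.cosh α * Dn b α (c ^ 2 - s ^ 2) * Real.cosh ρ -
        (c ^ 2 - s ^ 2) * hh b α * (nu b α * m0 b α) * Real.sinh ρ := by
      rw [div_le_iff₀ hch]
      refine h3.trans (le_of_eq ?_)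
      rw [← hh_mul (b := b) (α := α), Dn]
      ring
    have h5 := mul_le_mul_of_nonneg_left h4 (show 0 ≤ 2 * Real.sinh α by positivity)
    rw [hκ]
    refine h5.trans (le_of_eq ?_)
    rw [kbh, kdh, ← Real.cosh_add_sinh ρ, ← Real.cosh_sub_sinh ρ]
    ring
  have h6 := quad_V0 (x := Real.exp ρ) (y := Real.exp (-ρ)) hkb hkd h1 h2 h
  rw [pt0]
  refine h6.trans (le_of_eq ?_)
  rw [frm, hk0, hk0, hK, hκ]
  have e1 : Real.exp ρ ^ 2 = Real.cosh (2 * ρ) + Real.sinh (2 * ρ) := by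
    rw [Real.cosh_add_sinh, ← Real.exp_nat_mul]; congr 1
  have e2 : Real.exp (-ρ) ^ 2 = Real.cosh (2 * ρ) - Real.sinh (2 * ρ) := by
    rw [Real.cosh_sub_sinh, ← Real.exp_nat_mul]; congr 1; push_cast; ring
  rw [e1, e2, kbh, kdh]
  ring

include hb0 hb1 in
theorem rV_nonneg {V00 V01 V11 : ℝ} (h0 : 0 < V00) (h1 : 0 < V11) (h2 : V01 ^ 2 = V00 * V11)
    (hc : 0 < c) (hs : 0 < s) : 0 ≤ rV b α c s V00 V01 V11 := by
  have hσ := SchV.sg_pos hb0 α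
  have hσ1 := SchV.sg_le_one hb0 hb1 α
  have he : Real.exp α * Real.exp (-α) = 1 := by rw [← Real.exp_add]; simp
  have hp := Real.exp_pos α
  have hp' := Real.exp_pos (-α)
  rw [rV]
  -- (x + y)^2 ≥ 4 x y
  have hx : 0 < c ^ 2 * (V00 * Real.exp α) := by positivity
  have hy : 0 < s ^ 2 * (V11 * Real.exp (-α)) := by positivity
  have h3 : (2 * (c * s) * (V01 * SchV.sg b α)) ^ 2 ≤
      (c ^ 2 * (V00 * Real.exp α) + s ^ 2 * (V11 * Real.exp (-α))) ^ 2 := by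
    have e1 : (2 * (c * s) * (V01 * SchV.sg b α)) ^ 2 =
      4 * (c ^ 2 * (V00 * Real.exp α)) * (s ^ 2 * (V11 * Real.exp (-α))) * SchV.sg b α ^ 2 := by
      have : (2 * (c * s) * (V01 * SchV.sg b α)) ^ 2 =
        4 * c ^ 2 * s ^ 2 * V01 ^ 2 * SchV.sg b α ^ 2 := by ring
      rw [this, h2]
      linear_combination (-(4 * c ^ 2 * s ^ 2 * V00 * V11 * SchV.sg b α ^ 2)) * he
    rw [e1]
    have h4 : SchV.sg b α ^ 2 ≤ 1 := by nlinarith
    nlinarith [sq_nonneg (c ^ 2 * (V00 * Real.exp α) - s ^ 2 * (V11 * Real.exp (-α))),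
      mul_pos hx hy]
  have h5 := abs_le_of_sq_le_sq' h3 (by positivity)
  linarith [h5.2]

end

end SchW
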