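import Pool.Agent.LibSchW.W6

/-!
# `ColOK` from the facts at the three vertices
-/

open Set

namespace SchW

open SchV Pool.Agent.LibSchP Pool.Agent.LibSchA Pool.Agent.LibSchG

theorem Nh_nonneg {b α C w0 W Wq : ℝ} (hb0 : 0 < b) (hα : 0 < α) (hC0 : 0 ≤ C) (hC1 : C ≤ 1)
    (h0 : 0 < w0) (hW : 0 < W) (hq : 0 ≤ Wq) : 0 ≤ Nh b α C w0 W Wq := by
  have hD := Dn_pos hb0 hC0 hC1 (α := α)
  have hsh := Real.sinh_pos_iff.2 hα
  have hch := Real.cosh_pos α
  have h1 : 0 ≤ 1 - C ^ 2 := by nlinarith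
  rw [Nh]
  positivity

theorem par_v1 {b α C w0 W Wq : ℝ} (hb0 : 0 < b) (hb1 : b < 1) (hα : 0 < α) (hC0 : 0 ≤ C)
    (hC1 : C ≤ 1)
    (h : Nh b α C w0 W Wq * (alh b α C * kbh b α C + alh b α C * (kbh b α C + kdh b α C) +
      kbh b α C * (kbh b α C + kdh b α C)) ≤
      alh b α C * kbh b α C * (kbh b α C + kdh b α C)) :
    Nh b α C w0 W Wq * (alh b α C + pt0 b α C) ≤ alh b α C * pt0 b α C := by
  have hkb := kbh_pos hb0 hb1 hα hC0 hC1
  have hkd := kdh_nonneg hb0 hb1 hα hC0 hC1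
  have hD : 0 < kbh b α C + (kbh b α C + kdh b α C) := by linarith
  rw [pt0]
  have e1 : Nh b α C w0 W Wq * (alh b α C +
      kbh b α C * (kbh b α C + kdh b α C) / (kbh b α C + (kbh b α C + kdh b α C))) =
      Nh b α C w0 W Wq * (alh b α C * kbh b α C + alh b α C * (kbh b α C + kdh b α C) +
      kbh b α C * (kbh b α C + kdh b α C)) / (kbh b α C + (kbh b α C + kdh b α C)) := by
    have := hD.ne'
    rw [eq_div_iff this, mul_assoc, add_mul, div_mul_cancel₀ _ this]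
    ring
  have e2 : alh b α C *
      (kbh b α C * (kbh b α C + kdh b α C) / (kbh b α C + (kbh b α C + kdh b α C))) =
      alh b α C * kbh b α C * (kbh b α C + kdh b α C) /
        (kbh b α C + (kbh b α C + kdh b α C)) := by
    field_simp
  rw [e1, e2]
  exact div_le_div_of_nonneg_right h hD.le

/-- **assembly**: the vertex facts give the scalar statement for every increasing column -/
theorem colOK_of {a e₁ e₂ c s X Z : ℝ} (I : Inc a e₁ e₂ c s X Z)
    (H : VF (2 * a) (Real.log (e₁ / e₂) / 2) (c ^ 2 - s ^ 2) (w0 a) (wW a e₁ e₂) (Wq a e₁ e₂)) :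
    ColOK a e₁ e₂ c s X Z := by
  obtain ⟨ha, ha', he₂, he, hs, hsc, hcs, hv₁, hv₂, hL⟩ := I
  have he₁ : 0 < e₁ := he₂.trans he
  obtain ⟨m, α, h1, h2⟩ : ∃ m α : ℝ, e₁ = Real.exp (m + α) ∧ e₂ = Real.exp (m - α) := by
    refine ⟨(Real.log e₁ + Real.log e₂) / 2, (Real.log e₁ - Real.log e₂) / 2, ?_, ?_⟩
    · rw [show (Real.log e₁ + Real.log e₂) / 2 + (Real.log e₁ - Real.log e₂) / 2 = Real.log e₁ by
        ring, Real.exp_log he₁]
    · rw [show (Real.log e₁ + Real.log e₂) / 2 - (Real.log e₁ - Real.log e₂) / 2 = Real.log e₂ by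
        ring, Real.exp_log he₂]
  subst h1 h2
  rw [log_exp_div] at H
  have hα : 0 < α := by
    have := Real.exp_lt_exp.1 he
    linarith
  have hb0 : 0 < 2 * a := by linarith
  have hc : 0 < c := hs.trans_le hsc
  have hC0 := C_nonneg hs hsc
  have hC1 := C_le hs hcs
  have hsh := Real.sinh_pos_iff.2 hα
  have hch := Real.cosh_pos α
  have hX : 0 < X := by
    have e : c * (c * X - s * Z) + s * (s * X + c * Z) = X := by
      linear_combination X * hcs
    rw [← e]; positivity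
  have hW := wW_pos ha ha' hα m
  have hWq := hW.le.trans (Wq_ge ha ha' hα m)
  have hw0 := w0_pos ha ha'
  -- the column
  obtain ⟨V00, hV00⟩ : ∃ V, V = X ^ 2 * Real.exp ((2 * a - 2) * α) := ⟨_, rfl⟩
  obtain ⟨V01, hV01⟩ : ∃ V, V = X * Z := ⟨_, rfl⟩
  obtain ⟨V11, hV11⟩ : ∃ V, V = Z ^ 2 * Real.exp (-((2 * a - 2) * α)) := ⟨_, rfl⟩
  have hV0 : 0 < V00 := by rw [hV00]; positivity
  have hVV : V00 * V11 = V01 ^ 2 := by
    rw [hV00, hV01, hV11]
    have : Real.exp ((2 * a - 2) * α) * Real.exp (-((2 * a - 2) * α)) = 1 := by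
      rw [← Real.exp_add]; simp
    linear_combination X ^ 2 * Z ^ 2 * this
  have hS : 0 < 2 * (c * s) := by positivity
  have hSC : (2 * (c * s)) ^ 2 = 1 - (c ^ 2 - s ^ 2) ^ 2 := by
    linear_combination (c ^ 2 + s ^ 2 + 1) * hcs
  have hL12 := L12_exp ha hα m c s X Z
  rw [← hV00, ← hV01, ← hV11] at hL12
  have hkap : kapV (2 * a) α c s V00 V01 V11 =
      2 * (c * s) / 2 * (V00 - V11) + (c ^ 2 - s ^ 2) * (V01 * hh (2 * a) α) := by
    rw [kapV, hh]; ring
  have hk : 0 ≤ 2 * (c * s) / 2 * (V00 - V11) + (c ^ 2 - s ^ 2) * (V01 * hh (2 * a) α) := by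
    rw [← hkap]
    rw [hL12] at hL
    exact nonneg_of_mul_nonneg_right hL (by positivity)
  have hDn := Dn_pos hb0 hC0 hC1 (α := α)
  have hR : 0 < R0 (2 * a) α (c ^ 2 - s ^ 2) := Real.sqrt_pos.2 hDn
  have hR2 : R0 (2 * a) α (c ^ 2 - s ^ 2) ^ 2 =
      (2 * (c * s)) ^ 2 + (c ^ 2 - s ^ 2) ^ 2 * hh (2 * a) α ^ 2 := by
    rw [R0, Real.sq_sqrt hDn.le, Dn, hSC]
  obtain ⟨E, F, Ap, Am, A0, hE0, hF0, hEF, hE, hF, hAp, hAm, hA0, d0, d1, d2, d3⟩ :=
    cone_dec hS hR hR2 hV0 hVV hk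
  -- the constants
  set κ := 2 * a * Real.exp ((2 * a - 1) * m) with hκ
  set U := a * Real.exp (2 * a * m) * (2 * (c * s)) with hU
  have hU0 : 0 < U := by rw [hU]; positivity
  have hkb := kbh_pos hb0 ha' hα hC0 hC1
  have hkd := kdh_nonneg hb0 ha' hα hC0 hC1
  have hpt0 : 0 ≤ pt0 (2 * a) α (c ^ 2 - s ^ 2) := by rw [pt0]; positivity
  have ee : Real.exp ((2 * a - 1) * m) * Real.exp m = Real.exp (2 * a * m) := by
    rw [← Real.exp_add]; congr 1; ring
  refine ⟨κ * (kV (2 * a) α c s V00 V01 V11 0 - V01 * (nu (2 * a) α * m0 (2 * a) α)) / 2,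
    κ * (kV (2 * a) α c s V00 V01 V11 0 + V01 * (nu (2 * a) α * m0 (2 * a) α)) / 2,
    U * (A0 * pt0 (2 * a) α (c ^ 2 - s ^ 2)), ?_, by positivity, ?_, ?_⟩
  · -- M + P
    have h := kF_exp ha m α 0 0 c s X Z
    rw [add_zero, sub_zero, Real.exp_zero, ← hV00, ← hV01, ← hV11] at h
    rw [h, hκ]
    ring
  · -- the parallel sum
    have hr := r1_exp ha m α c s X Z
    rw [← hV00, ← hV01, ← hV11] at hr
    have hp := pS_exp ha ha' (m := m) hα hc hs hcs X Z
    have hx := x0_exp m α c s hcs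
    have e1 : pS a (Real.exp (m + α)) (Real.exp (m - α)) c s X Z =
        U * (A0 * Nh (2 * a) α (c ^ 2 - s ^ 2) (w0 a)
          (wW a (Real.exp (m + α)) (Real.exp (m - α)))
          (Wq a (Real.exp (m + α)) (Real.exp (m - α)))) := by
      rw [hp, hL12, hkap, d3, hR2, Nh, Num, Den, Dn, ← hSC, hU]
      have : Real.exp (2 * a * m) = Real.exp ((2 * a - 2) * m) * Real.exp m ^ 2 := by
        rw [← Real.exp_nat_mul, ← Real.exp_add]; congr 1; push_cast; ring
      rw [this]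
      ring
    have e2 : r1 a (Real.exp (m + α)) (Real.exp (m - α)) c s X Z *
        x0 (Real.exp (m + α)) (Real.exp (m - α)) c s / 2 =
        U * (A0 * alh (2 * a) α (c ^ 2 - s ^ 2) +
          (Ap * rV (2 * a) α c s F 1 E + Am * rV (2 * a) α c s E (-1) F) *
            (Real.cosh α + (c ^ 2 - s ^ 2) * Real.sinh α) / (2 * (c * s))) := by
      have hV : rV (2 * a) α c s V00 V01 V11 = Ap * rV (2 * a) α c s F 1 E +
          Am * rV (2 * a) α c s E (-1) F +
          A0 * rV (2 * a) α c s (2 * (c * s)) ((c ^ 2 - s ^ 2) * hh (2 * a) α)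
            (-(2 * (c * s))) := by
        rw [← rV_lin, d0, d1, d2]
        congr 1 <;> ring
      have hz : rV (2 * a) α c s (2 * (c * s)) ((c ^ 2 - s ^ 2) * hh (2 * a) α)
            (-(2 * (c * s))) * (Real.cosh α + (c ^ 2 - s ^ 2) * Real.sinh α) =
          2 * (c * s) * alh (2 * a) α (c ^ 2 - s ^ 2) := by
        rw [rV, alh, ← Real.cosh_add_sinh α, ← Real.cosh_sub_sinh α]
        linear_combination (2 * (c * s)) * Real.sinh α *
          (Real.cosh α + (c ^ 2 - s ^ 2) * Real.sinh α) * hcs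
      rw [hr, hx, hV, hU, ← ee]
      generalize rV (2 * a) α c s (2 * (c * s)) ((c ^ 2 - s ^ 2) * hh (2 * a) α)
            (-(2 * (c * s))) = r0 at hz ⊢
      generalize rV (2 * a) α c s F 1 E = rp
      generalize rV (2 * a) α c s E (-1) F = rm
      generalize alh (2 * a) α (c ^ 2 - s ^ 2) = al at hz ⊢
      have hS' : (2 * (c * s)) * ((Ap * rp + Am * rm) *
        (Real.cosh α + (c ^ 2 - s ^ 2) * Real.sinh α) / (2 * (c * s))) = (Ap * rp + Am * rm) *
        (Real.cosh α + (c ^ 2 - s ^ 2) * Real.sinh α) := mul_div_cancel₀ _ hS.ne'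
      linear_combination (a * Real.exp ((2 * a - 1) * m) * Real.exp m * A0) * hz -
        (a * Real.exp ((2 * a - 1) * m) * Real.exp m) * hS'
    rw [e1, e2]
    have hal := alh_pos hb0 ha' hα hC0 (C := c ^ 2 - s ^ 2)
    have hN := Nh_nonneg (C := c ^ 2 - s ^ 2) hb0 hα hC0 hC1 hw0 hW hWq
    have hrp : 0 ≤ rV (2 * a) α c s F 1 E :=
      rV_nonneg hb0 ha' hF0 hE0 (by rw [mul_comm F E, hEF]; ring) hc hs
    have hrm : 0 ≤ rV (2 * a) α c s E (-1) F :=
      rV_nonneg hb0 ha' hE0 hF0 (by rw [hEF]; ring) hc hs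
    have hrest : 0 ≤ (Ap * rV (2 * a) α c s F 1 E + Am * rV (2 * a) α c s E (-1) F) *
            (Real.cosh α + (c ^ 2 - s ^ 2) * Real.sinh α) / (2 * (c * s)) := by
      positivity
    have hv := par_v1 hb0 ha' hα hC0 hC1 H.v1
    have hps := par_sum hA0 hrest hal hpt0 hN hv
    have := mul_le_mul_of_nonneg_left hps (show 0 ≤ U * U by positivity)
    generalize Nh (2 * a) α (c ^ 2 - s ^ 2) (w0 a)
          (wW a (Real.exp (m + α)) (Real.exp (m - α)))
          (Wq a (Real.exp (m + α)) (Real.exp (m - α))) = N at this ⊢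
    generalize alh (2 * a) α (c ^ 2 - s ^ 2) = al at this ⊢
    generalize (Ap * rV (2 * a) α c s F 1 E + Am * rV (2 * a) α c s E (-1) F) *
            (Real.cosh α + (c ^ 2 - s ^ 2) * Real.sinh α) / (2 * (c * s)) = rest at this ⊢
    generalize pt0 (2 * a) α (c ^ 2 - s ^ 2) = p0 at this ⊢
    calc _ = U * U * (A0 * N * (A0 * al + rest + A0 * p0)) := by ring
      _ ≤ U * U * ((A0 * al + rest) * (A0 * p0)) := this
      _ = _ := by ring
  · -- the pointwise inequality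
    intro x y h hx hy
    obtain ⟨u, ρ, hxe, hye⟩ : ∃ u ρ : ℝ, x = Real.exp (u + ρ) ∧ y = Real.exp (u - ρ) := by
      refine ⟨(Real.log x + Real.log y) / 2, (Real.log x - Real.log y) / 2, ?_, ?_⟩
      · rw [show (Real.log x + Real.log y) / 2 + (Real.log x - Real.log y) / 2 = Real.log x by
          ring, Real.exp_log hx]
      · rw [show (Real.log x + Real.log y) / 2 - (Real.log x - Real.log y) / 2 = Real.log y by
          ring, Real.exp_log hy]
    have hkF := kF_exp ha m α u ρ c s X Z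
    rw [← hV00, ← hV01, ← hV11] at hkF
    rw [hxe, hye, hkF, h0_exp]
    have hu := Real.exp_pos u
    obtain ⟨h', hh'⟩ : ∃ h', h = Real.exp u * h' := ⟨h / Real.exp u, by field_simp⟩
    rw [hh']
    have f0 := frm_zero hb0 ha' hα hs hsc hcs H ρ h'
    have f1 := frm_plus hb0 hα hs hsc hcs H hE hF ρ h'
    have f2 := frm_minus hb0 hα hs hsc hcs H hE hF ρ h'
    have hfr : frm (2 * a) α c s V00 V01 V11 ρ h' =
        Ap * frm (2 * a) α c s F 1 E ρ h' + Am * frm (2 * a) α c s E (-1) F ρ h' +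
        A0 * frm (2 * a) α c s (2 * (c * s)) ((c ^ 2 - s ^ 2) * hh (2 * a) α)
            (-(2 * (c * s))) ρ h' := by
      rw [← frm_lin, d0, d1, d2]
      congr 1 <;> ring
    have hge : A0 * (pt0 (2 * a) α (c ^ 2 - s ^ 2) * (Real.exp ρ - h') ^ 2) ≤
        frm (2 * a) α c s V00 V01 V11 ρ h' := by
      rw [hfr]
      have := mul_le_mul_of_nonneg_left f0 hA0
      have g1 := mul_nonneg hAp f1
      have g2 := mul_nonneg hAm f2
      linarith
    have hmul := mul_le_mul_of_nonneg_left hge (show 0 ≤ U * Real.exp u ^ 2 by positivity)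
    have e3 : Real.exp (u + ρ) = Real.exp u * Real.exp ρ := Real.exp_add u ρ
    have e4 : Real.exp (u - ρ) = Real.exp u * Real.exp (-ρ) := by
      rw [← Real.exp_add]; rfl
    have c1 : Real.exp ρ ^ 2 = Real.cosh (2 * ρ) + Real.sinh (2 * ρ) := by
      rw [Real.cosh_add_sinh, ← Real.exp_nat_mul]; congr 1
    have c2 : Real.exp (-ρ) ^ 2 = Real.cosh (2 * ρ) - Real.sinh (2 * ρ) := by
      rw [Real.cosh_sub_sinh, ← Real.exp_nat_mul]; congr 1; push_cast; ring
    have l : U * (A0 * pt0 (2 * a) α (c ^ 2 - s ^ 2)) *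
        (Real.exp (u + ρ) - Real.exp u * h') ^ 2 =
        U * Real.exp u ^ 2 * (A0 * (pt0 (2 * a) α (c ^ 2 - s ^ 2) * (Real.exp ρ - h') ^ 2)) := by
      rw [e3]; ring
    rw [l]
    refine hmul.trans (le_of_eq ?_)
    rw [e3, e4, mul_pow, mul_pow, c1, c2, frm, hU, hκ, ← ee]
    ring

end SchW
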