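import Pool.Agent.LibSchW.W7

/-!
# `ColOK` for `b ≥ 2/5` from the three-term inequality at `V₀`
-/

open Set

namespace SchW

open SchV Pool.Agent.LibSchP Pool.Agent.LibSchA Pool.Agent.LibSchG

/-- the three-term inequality at the vertex `V₀` -/
def V1 (b α C w0 W Wq : ℝ) : Prop :=
  Nh b α C w0 W Wq * (alh b α C * kbh b α C + alh b α C * (kbh b α C + kdh b α C) +
      kbh b α C * (kbh b α C + kdh b α C)) ≤
      alh b α C * kbh b α C * (kbh b α C + kdh b α C)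

theorem VF_of {b : ℝ} (hb0 : 0 < b) (hb1 : b < 1) (hb : 2 / 5 ≤ b) {α C w0 W Wq : ℝ} (hα : 0 < α)
    (hC0 : 0 ≤ C) (hC1 : C ≤ 1) (h : V1 b α C w0 W Wq) : VF b α C w0 W Wq := by
  have hsh := Real.sinh_pos_iff.2 hα
  have hm : m0 b α ≤ R0 b α C * Real.sinh α := by
    rw [m0_eq hb0 hb1 hα]
    refine mul_le_mul_of_nonneg_right ?_ hsh.le
    rw [R0]
    exact Real.le_sqrt_of_sq_le (hh_sq_le_Dn hb0 hb1 hC0 hC1)
  exact ⟨fun y => V0_low hb0 hb1 hα hC0 hC1 y, fun y => V0_up hb0 hb1 hb hα hC0 hC1 y,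
    fun y => flat_minus hb0 hb1 hb hα hm (by linarith) hC1 y,
    fun y => flat_plus hb0 hb1 hb hα hm (by linarith) hC1 y, h⟩

/-- Target A, given the three-term inequality -/
theorem colOK_A' {a e₁ e₂ c s X Z : ℝ} (I : Inc a e₁ e₂ c s X Z) (hb : 2 / 5 ≤ 2 * a)
    (h : V1 (2 * a) (Real.log (e₁ / e₂) / 2) (c ^ 2 - s ^ 2) (w0 a) (wW a e₁ e₂) (Wq a e₁ e₂)) :
    ColOK a e₁ e₂ c s X Z := by
  refine colOK_of I (VF_of ?_ I.ha' hb ?_ (C_nonneg I.hs I.hsc) (C_le I.hs I.hcs) h)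
  · linarith [I.ha]
  · have : 1 < e₁ / e₂ := (one_lt_div I.he₂).2 I.he
    have := Real.log_pos this
    linarith

end SchW
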